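import Mathlib

/-! Combinatorics on a well-order of type omega one, used for the function space problem. -/

set_option autoImplicit false

namespace Pool.Agent.Lib.MP_d2cc73_gt

open Set Cardinal

/-- The well-ordered type `ω₁`. -/
abbrev Om : Type := (ℵ₁ : Cardinal.{0}).ord.ToType

theorem mk_Om : #Om = ℵ₁ := by simp [Om]

instance uncountable_Om : Uncountable Om := by
  rw [← Cardinal.aleph0_lt_mk_iff, mk_Om]
  exact aleph0_lt_aleph_one

theorem countable_Iio_Om (i : Om) : (Set.Iio i).Countable := by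
  rw [← Cardinal.le_aleph0_iff_set_countable, ← Cardinal.lt_aleph_one_iff]
  have h := Cardinal.mk_Iio_lt (α := Om) i (by simp [Om])
  rwa [mk_Om] at h

theorem exists_inj_Om (J : Type) [Uncountable J] : ∃ f : Om → J, Function.Injective f := by
  have h : #Om ≤ #J := by
    rw [mk_Om, Cardinal.aleph_one_le_iff, Cardinal.aleph0_lt_mk_iff]
    infer_instance
  obtain ⟨f⟩ := h
  exact ⟨f, f.injective⟩

theorem exists_inj_Om_set {J : Type} (S : Set J) (hS : ¬ S.Countable) :
    ∃ f : Om → J, Function.Injective f ∧ ∀ i, f i ∈ S := by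
  have : Uncountable S := by
    rw [← not_countable_iff]
    intro h
    exact hS (Set.countable_coe_iff.mp h)
  obtain ⟨f, hf⟩ := exists_inj_Om S
  exact ⟨fun i => (f i : J), Subtype.val_injective.comp hf, fun i => (f i).2⟩

/-- Transfinite recursion of length `ω₁`. -/
theorem exists_rec {A : Type} (P : Om → Set A → A → Prop)
    (hP : ∀ (i : Om) (S : Set A), S.Countable → ∃ a, P i S a) :
    ∃ j : Om → A, ∀ i, P i (j '' Set.Iio i) (j i) := by
  classical
  have i0 : Om := Classical.arbitrary Om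
  obtain ⟨a0, -⟩ := hP i0 ∅ Set.countable_empty
  let F : (i : Om) → ((k : Om) → k < i → A) → A := fun i g =>
    if h : ∃ a, P i {a | ∃ k, ∃ hk : k < i, g k hk = a} a then h.choose else a0
  let j : Om → A := WellFounded.fix (wellFounded_lt (α := Om)) F
  refine ⟨j, fun i => ?_⟩
  have hj : j i = F i (fun k _ => j k) := WellFounded.fix_eq _ F i
  have hset : {a | ∃ k, ∃ _ : k < i, j k = a} = j '' Set.Iio i := by
    ext a
    constructor
    · rintro ⟨k, hk, rfl⟩
      exact ⟨k, hk, rfl⟩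
    · rintro ⟨k, hk, rfl⟩
      exact ⟨k, hk, rfl⟩
  have hex : ∃ a, P i {a | ∃ k, ∃ _ : k < i, j k = a} a := by
    rw [hset]
    exact hP i _ ((countable_Iio_Om i).image j)
  have : F i (fun k _ => j k) = hex.choose := dif_pos hex
  rw [hj, this, ← hset]
  exact hex.choose_spec

/-- Splitting at most `ω₁` many uncountable sets. -/
theorem exists_split {A I : Type} (s : Om → I) (hs : Function.Surjective s)
    (S : I → Set A) :
    ∃ P Q : Set A, Disjoint P Q ∧
      ∀ i, ¬ (S i).Countable → (P ∩ S i).Nonempty ∧ (Q ∩ S i).Nonempty := by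
  classical
  -- choose pairs
  by_cases hall : ∀ i, (S i).Countable
  · exact ⟨∅, ∅, by simp, fun i hi => absurd (hall i) hi⟩
  push Not at hall
  obtain ⟨i0, hi0⟩ := hall
  have hne : (S i0).Nonempty := by
    rw [Set.nonempty_iff_ne_empty]
    intro h
    rw [h] at hi0
    exact hi0 Set.countable_empty
  obtain ⟨a0, -⟩ := hne
  let Pr : Om → Set (A × A) → A × A → Prop := fun i T p =>
    ¬ (S (s i)).Countable → (p.1 ∈ S (s i) ∧ p.2 ∈ S (s i) ∧ p.1 ≠ p.2 ∧
      (∀ q ∈ T, p.1 ≠ q.1 ∧ p.1 ≠ q.2 ∧ p.2 ≠ q.1 ∧ p.2 ≠ q.2))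
  obtain ⟨j, hj⟩ := exists_rec Pr (by
    intro i T hT
    by_cases h : (S (s i)).Countable
    · exact ⟨(a0, a0), fun h' => absurd h h'⟩
    · have hC : (Prod.fst '' T ∪ Prod.snd '' T).Countable := (hT.image _).union (hT.image _)
      have h1 : ¬ (S (s i) \ (Prod.fst '' T ∪ Prod.snd '' T)).Countable := by
        intro h2
        apply h
        exact (h2.union hC).mono (by
          intro x hx
          by_cases hx' : x ∈ Prod.fst '' T ∪ Prod.snd '' T
          · exact Or.inr hx'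
          · exact Or.inl ⟨hx, hx'⟩)
      have h1inf : (S (s i) \ (Prod.fst '' T ∪ Prod.snd '' T)).Infinite := by
        intro hfin
        exact h1 hfin.countable
      obtain ⟨p, hp, q, hq, hpq⟩ := h1inf.nontrivial
      refine ⟨(p, q), fun _ => ⟨hp.1, hq.1, hpq, ?_⟩⟩
      intro r hr
      refine ⟨?_, ?_, ?_, ?_⟩
      · rintro h3
        exact hp.2 (Or.inl ⟨r, hr, h3.symm⟩)
      · rintro h3
        exact hp.2 (Or.inr ⟨r, hr, h3.symm⟩)
      · rintro h3
        exact hq.2 (Or.inl ⟨r, hr, h3.symm⟩)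
      · rintro h3
        exact hq.2 (Or.inr ⟨r, hr, h3.symm⟩))
  refine ⟨{a | ∃ i, ¬ (S (s i)).Countable ∧ a = (j i).1},
    {a | ∃ i, ¬ (S (s i)).Countable ∧ a = (j i).2}, ?_, ?_⟩
  · rw [Set.disjoint_left]
    rintro a ⟨i, hi, rfl⟩ ⟨k, hk, hik⟩
    rcases lt_trichotomy i k with h | h | h
    · have := (hj k hk).2.2.2 (j i) ⟨i, h, rfl⟩
      exact this.2.2.1 hik.symm
    · subst h
      exact (hj i hi).2.2.1 hik
    · have := (hj i hi).2.2.2 (j k) ⟨k, h, rfl⟩
      exact this.2.1 hik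
  · intro i hi
    obtain ⟨k, rfl⟩ := hs i
    exact ⟨⟨(j k).1, ⟨k, hi, rfl⟩, (hj k hi).1⟩, ⟨(j k).2, ⟨k, hi, rfl⟩, (hj k hi).2.1⟩⟩

end Pool.Agent.Lib.MP_d2cc73_gt
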