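import Mathlib
import Pool.Agent.Lib.MP_d2cc73_gt.Omega

/-! Basic facts about the space of continuous maps to the two point space with the pointwise
topology. -/

set_option autoImplicit false

namespace Pool.Agent.Lib.MP_d2cc73_gt

open Set Topology

/-- The space of continuous functions `X → Bool` with the pointwise topology. -/
abbrev CB (X : Type) [TopologicalSpace X] : Type := {f : X → Bool // Continuous f}

section general

variable {X : Type} [TopologicalSpace X]

/-- Basic neighbourhoods. -/
def Nb (K : Finset X) (y : CB X) : Set (CB X) := {z | ∀ x ∈ K, z.1 x = y.1 x}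

theorem self_mem_Nb (K : Finset X) (y : CB X) : y ∈ Nb K y := fun _ _ => rfl

theorem continuous_eval (x : X) : Continuous (fun z : CB X => z.1 x) :=
  (continuous_apply x).comp continuous_subtype_val

theorem isOpen_eval (x : X) (b : Bool) : IsOpen {z : CB X | z.1 x = b} :=
  (isOpen_discrete {b}).preimage (continuous_eval x)

theorem isOpen_Nb (K : Finset X) (y : CB X) : IsOpen (Nb K y) := by
  have : Nb K y = ⋂ x ∈ K, {z : CB X | z.1 x = y.1 x} := by
    ext z
    simp [Nb]
  rw [this]
  exact isOpen_biInter_finset (fun x _ => isOpen_eval x _)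

theorem exists_Nb_subset {U : Set (CB X)} (hU : IsOpen U) {y : CB X} (hy : y ∈ U) :
    ∃ K : Finset X, Nb K y ⊆ U := by
  rw [isOpen_induced_iff] at hU
  obtain ⟨V, hV, rfl⟩ := hU
  rw [isOpen_pi_iff] at hV
  obtain ⟨I, u, hu, hI⟩ := hV y.1 hy
  refine ⟨I, fun z hz => ?_⟩
  apply hI
  intro a ha
  rw [hz a ha]
  exact (hu a ha).2

theorem mem_closure_iff_Nb {S : Set (CB X)} {y : CB X} :
    y ∈ closure S ↔ ∀ K : Finset X, (Nb K y ∩ S).Nonempty := by
  constructor
  · intro h K
    exact mem_closure_iff.mp h _ (isOpen_Nb K y) (self_mem_Nb K y)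
  · intro h
    rw [mem_closure_iff]
    intro U hU hy
    obtain ⟨K, hK⟩ := exists_Nb_subset hU hy
    obtain ⟨z, hz1, hz2⟩ := h K
    exact ⟨z, hK hz1, hz2⟩

theorem continuous_bool2 (F : Bool → Bool → Bool) {f g : X → Bool} (hf : Continuous f)
    (hg : Continuous g) : Continuous (fun x => F (f x) (g x)) :=
  (continuous_of_discreteTopology (f := fun p : Bool × Bool => F p.1 p.2)).comp
    (hf.prodMk hg)

/-- Pointwise combination. -/
def comb (F : Bool → Bool → Bool) (y z : CB X) : CB X :=
  ⟨fun x => F (y.1 x) (z.1 x), continuous_bool2 F y.2 z.2⟩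

/-- Characteristic function of a clopen set. -/
noncomputable def ofClopen (U : Set X) (hU : IsClopen U) : CB X :=
  ⟨U.boolIndicator, (continuous_boolIndicator_iff_isClopen U).2 hU⟩

theorem ofClopen_apply_true {U : Set X} (hU : IsClopen U) (x : X) :
    (ofClopen U hU).1 x = true ↔ x ∈ U := by
  change U.boolIndicator x = true ↔ x ∈ U
  exact (Set.mem_iff_boolIndicator U x).symm

theorem ofClopen_apply_false {U : Set X} (hU : IsClopen U) (x : X) :
    (ofClopen U hU).1 x = false ↔ x ∉ U := by
  change U.boolIndicator x = false ↔ x ∉ U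
  exact (Set.notMem_iff_boolIndicator U x).symm

theorem isClopen_eval (y : CB X) (b : Bool) : IsClopen {x | y.1 x = b} :=
  (isClopen_discrete {b}).preimage y.2

/-- Functions determined by `T`. -/
def Det (T : Set (CB X)) : Set (CB X) :=
  {y | ∀ x x', (∀ t ∈ T, t.1 x = t.1 x') → y.1 x = y.1 x'}

/-- Functions determined by a finite subset of `S`. -/
def W (S : Set (CB X)) : Set (CB X) :=
  {y | ∃ T : Finset (CB X), (T : Set (CB X)) ⊆ S ∧ y ∈ Det (T : Set (CB X))}

theorem W_mono {S S' : Set (CB X)} (h : S ⊆ S') : W S ⊆ W S' := by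
  rintro y ⟨T, hT, hy⟩
  exact ⟨T, hT.trans h, hy⟩

theorem subset_W (S : Set (CB X)) : S ⊆ W S := by
  intro y hy
  refine ⟨{y}, by simpa using hy, ?_⟩
  intro x x' h
  exact h y (by simp)

theorem Det_countable (T : Finset (CB X)) : (Det (T : Set (CB X))).Countable := by
  classical
  let φ : CB X → Set (T → Bool) := fun y =>
    {σ | ∃ x, (∀ t : T, t.1.1 x = σ t) ∧ y.1 x = true}
  apply Set.countable_of_injective_of_countable_image (f := φ)
  · intro y hy z hz h
    apply Subtype.ext
    funext x
    have key : ∀ y ∈ Det (T : Set (CB X)), ∀ z ∈ Det (T : Set (CB X)), φ y = φ z →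
        ∀ x, y.1 x = true → z.1 x = true := by
      intro y hy z hz h x hx
      have : (fun t : T => t.1.1 x) ∈ φ y := ⟨x, fun _ => rfl, hx⟩
      rw [h] at this
      obtain ⟨x', h1, h2⟩ := this
      rw [← h2]
      apply hz
      intro t ht
      exact (h1 ⟨t, ht⟩).symm
    by_cases hx : y.1 x = true
    · rw [hx, key y hy z hz h x hx]
    · have hx' : z.1 x ≠ true := fun h' => hx (key z hz y hy h.symm x h')
      simp only [Bool.not_eq_true] at hx hx'
      rw [hx, hx']
  · exact (Set.toFinite _).countable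

theorem W_countable {S : Set (CB X)} (hS : S.Countable) : (W S).Countable := by
  have : W S = ⋃ T ∈ {T : Finset (CB X) | (T : Set (CB X)) ⊆ S}, Det (T : Set (CB X)) := by
    ext y
    simp [W]
  rw [this]
  apply Set.Countable.biUnion
  · have h := Set.countable_ofPred_finite_subset hS
    have h2 : {T : Finset (CB X) | (T : Set (CB X)) ⊆ S} =
        (fun T : Finset (CB X) => (T : Set (CB X))) ⁻¹' {t | t.Finite ∧ t ⊆ S} := by
      ext T
      simp
    rw [h2]
    exact h.preimage Finset.coe_injective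
  · intro T _
    exact Det_countable T

theorem Det_subset_W [CompactSpace X] {S : Set (CB X)} {y : CB X} (hy : y ∈ Det S) :
    y ∈ W S := by
  have hcl : IsClosed {p : X × X | y.1 p.1 ≠ y.1 p.2} := by
    have : {p : X × X | y.1 p.1 ≠ y.1 p.2} =
        (fun p : X × X => (y.1 p.1, y.1 p.2)) ⁻¹' {q : Bool × Bool | q.1 ≠ q.2} := rfl
    rw [this]
    exact (isClosed_discrete _).preimage
      ((y.2.comp continuous_fst).prodMk (y.2.comp continuous_snd))
  have hop : ∀ s : CB X, IsOpen {p : X × X | s.1 p.1 ≠ s.1 p.2} := by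
    intro s
    have : {p : X × X | s.1 p.1 ≠ s.1 p.2} =
        (fun p : X × X => (s.1 p.1, s.1 p.2)) ⁻¹' {q : Bool × Bool | q.1 ≠ q.2} := rfl
    rw [this]
    exact (isOpen_discrete _).preimage
      ((s.2.comp continuous_fst).prodMk (s.2.comp continuous_snd))
  have hcov : {p : X × X | y.1 p.1 ≠ y.1 p.2} ⊆ ⋃ s ∈ S, {p : X × X | s.1 p.1 ≠ s.1 p.2} := by
    intro p hp
    by_contra hno
    simp only [mem_iUnion, not_exists] at hno
    apply hp
    apply hy
    intro t ht
    by_contra hne
    exact hno t ht hne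
  obtain ⟨b, hbS, hbfin, hb⟩ := hcl.isCompact.elim_finite_subcover_image
    (fun s _ => hop s) hcov
  refine ⟨hbfin.toFinset, by simpa using hbS, ?_⟩
  intro x x' h
  by_contra hne
  have := hb (show (x, x') ∈ {p : X × X | y.1 p.1 ≠ y.1 p.2} from hne)
  simp only [mem_iUnion] at this
  obtain ⟨s, hs, hs2⟩ := this
  exact hs2 (h s (by simpa using hs))

theorem closure_subset_Det {S : Set (CB X)} {y : CB X} (hy : y ∈ closure S) : y ∈ Det S := by
  classical
  intro x x' h
  obtain ⟨z, hz, hzS⟩ := mem_closure_iff_Nb.mp hy {x, x'}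
  rw [← hz x (by simp), ← hz x' (by simp)]
  exact h z hzS

theorem closure_subset_W [CompactSpace X] {S : Set (CB X)} {y : CB X} (hy : y ∈ closure S) :
    y ∈ W S := Det_subset_W (closure_subset_Det hy)

theorem Nb_eq_of_mem {K : Finset X} {y z : CB X} (h : z ∈ Nb K y) : Nb K z = Nb K y := by
  ext w
  constructor
  · intro hw x hx
    rw [hw x hx, h x hx]
  · intro hw x hx
    rw [hw x hx, h x hx]

theorem Nb_anti {K K' : Finset X} (h : K ⊆ K') (y : CB X) : Nb K' y ⊆ Nb K y :=
  fun _ hz x hx => hz x (h hx)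

/-- Closedness of images of closed discrete families. -/
theorem isClosed_image_of_discrete {J : Type} {e : J → CB X}
    (hd : ∀ y, ∃ K : Finset X, ∀ j, e j ∈ Nb K y → e j = y) (S : Set J) :
    IsClosed (e '' S) := by
  rw [← isOpen_compl_iff, isOpen_iff_mem_nhds]
  intro y hy
  obtain ⟨K, hK⟩ := hd y
  refine Filter.mem_of_superset ((isOpen_Nb K y).mem_nhds (self_mem_Nb K y)) ?_
  rintro z hz ⟨j, hj, rfl⟩
  apply hy
  exact ⟨j, hj, hK j hz⟩

end general

section antichain

variable {X : Type}

/-- The countable chain condition for finite partial functions. -/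
theorem antichain_countable_aux (n : ℕ) : ∀ M : Set (Finset X × (X → Bool)),
    (∀ p ∈ M, p.1.card = n) →
    (∀ p ∈ M, ∀ q ∈ M, p ≠ q → ∃ x, x ∈ p.1 ∧ x ∈ q.1 ∧ p.2 x ≠ q.2 x) → M.Countable := by
  classical
  induction n with
  | zero =>
    intro M h0 hM
    apply Set.Subsingleton.countable
    intro p hp q hq
    by_contra hne
    obtain ⟨x, hx, -⟩ := hM p hp q hq hne
    have := h0 p hp
    rw [Finset.card_eq_zero] at this
    rw [this] at hx
    simp at hx
  | succ n ih =>
    intro M h0 hM
    rcases M.eq_empty_or_nonempty with rfl | ⟨p0, hp0⟩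
    · exact Set.countable_empty
    have hsub : M ⊆ {p0} ∪ ⋃ x ∈ p0.1, {p ∈ M | x ∈ p.1 ∧ p.2 x ≠ p0.2 x} := by
      intro p hp
      by_cases h : p = p0
      · left; exact h
      · right
        obtain ⟨x, hx1, hx2, hx3⟩ := hM p hp p0 hp0 h
        simp only [mem_iUnion]
        exact ⟨x, hx2, hp, hx1, hx3⟩
    refine Set.Countable.mono hsub ?_
    refine (Set.countable_singleton p0).union ?_
    refine Set.Countable.biUnion (Finset.countable_toSet _) ?_
    intro x hx
    set Mx := {p ∈ M | x ∈ p.1 ∧ p.2 x ≠ p0.2 x} with hMx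
    let φ : Finset X × (X → Bool) → Finset X × (X → Bool) := fun p => (p.1.erase x, p.2)
    apply Set.countable_of_injective_of_countable_image (f := φ)
    · intro p hp q hq h
      have h1 : p.1.erase x = q.1.erase x := (Prod.ext_iff.mp h).1
      have h2 : p.2 = q.2 := (Prod.ext_iff.mp h).2
      refine Prod.ext ?_ h2
      rw [← Finset.insert_erase hp.2.1, h1, Finset.insert_erase hq.2.1]
    · apply ih
      · rintro _ ⟨p, hp, rfl⟩
        change (p.1.erase x).card = n
        rw [Finset.card_erase_of_mem hp.2.1, h0 p hp.1]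
        rfl
      · rintro _ ⟨p, hp, rfl⟩ _ ⟨q, hq, rfl⟩ hne
        have hpq : p ≠ q := fun h => hne (by rw [h])
        obtain ⟨x', h1, h2, h3⟩ := hM p hp.1 q hq.1 hpq
        have hx' : x' ≠ x := by
          rintro rfl
          apply h3
          have a1 := hp.2.2
          have a2 := hq.2.2
          rw [Bool.eq_not_of_ne a1, Bool.eq_not_of_ne a2]
        exact ⟨x', Finset.mem_erase.2 ⟨hx', h1⟩, Finset.mem_erase.2 ⟨hx', h2⟩, h3⟩

theorem antichain_countable (M : Set (Finset X × (X → Bool)))
    (hM : ∀ p ∈ M, ∀ q ∈ M, p ≠ q → ∃ x, x ∈ p.1 ∧ x ∈ q.1 ∧ p.2 x ≠ q.2 x) :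
    M.Countable := by
  have : M = ⋃ n : ℕ, {p ∈ M | p.1.card = n} := by
    ext p
    simp
  rw [this]
  apply Set.countable_iUnion
  intro n
  apply antichain_countable_aux n
  · exact fun p hp => hp.2
  · exact fun p hp q hq h => hM p hp.1 q hq.1 h

end antichain

end Pool.Agent.Lib.MP_d2cc73_gt
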