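import Mathlib
import Pool.Agent.Lib.MP_d2cc73_gt.Basic

/-! Separation by countably many coordinates, closed discrete families, selection. -/

set_option autoImplicit false

namespace Pool.Agent.Lib.MP_d2cc73_gt

open Set Topology

variable {X : Type} [TopologicalSpace X]

section profinite

variable [CompactSpace X] [T2Space X] [TotallyDisconnectedSpace X]

theorem exists_ext (K : Finset X) (t : X → Bool) : ∃ y : CB X, ∀ x ∈ K, y.1 x = t x := by
  classical
  induction K using Finset.induction_on with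
  | empty => exact ⟨⟨fun _ => false, continuous_const⟩, by simp⟩
  | insert a K ha ih =>
    obtain ⟨y, hy⟩ := ih
    have hopen : IsOpen ((K : Set X)ᶜ) := K.finite_toSet.isClosed.isOpen_compl
    obtain ⟨V, hV, haV, hVK⟩ := compact_exists_isClopen_in_isOpen hopen
      (show a ∈ (K : Set X)ᶜ by simpa using ha)
    let v : CB X := ofClopen V hV
    refine ⟨comb (fun p q => bif p then t a else q) v y, ?_⟩
    intro x hx
    change (bif v.1 x then t a else y.1 x) = t x
    rw [Finset.mem_insert] at hx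
    rcases hx with rfl | hx
    · have hv : v.1 x = true := (ofClopen_apply_true hV x).2 haV
      rw [hv]
      rfl
    · have hv : v.1 x = false := (ofClopen_apply_false hV x).2 (fun h => hVK h (by simpa using hx))
      rw [hv]
      exact hy x hx

/-- The closure of an open set is determined by countably many coordinates. -/
theorem exists_countable_closure {U : Set (CB X)} (hU : IsOpen U) :
    ∃ C : Set X, C.Countable ∧ ∀ y, y ∉ closure U →
      ∃ K : Finset X, (K : Set X) ⊆ C ∧ ∀ z ∈ Nb K y, z ∉ U := by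
  classical
  let Fam : Set (Set (Finset X × (X → Bool))) := {M |
    (∀ p ∈ M, ∀ z : CB X, (∀ x ∈ p.1, z.1 x = p.2 x) → z ∈ U) ∧
    (∀ p ∈ M, ∀ q ∈ M, p ≠ q → ∃ x, x ∈ p.1 ∧ x ∈ q.1 ∧ p.2 x ≠ q.2 x)}
  obtain ⟨M, hM⟩ := zorn_subset Fam (by
    intro c hc hchain
    refine ⟨⋃₀ c, ⟨?_, ?_⟩, fun s hs => subset_sUnion_of_mem hs⟩
    · rintro p ⟨s, hs, hp⟩
      exact (hc hs).1 p hp
    · rintro p ⟨s, hs, hp⟩ q ⟨s', hs', hq⟩ hpq
      rcases hchain.total hs hs' with h | h
      · exact (hc hs').2 p (h hp) q hq hpq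
      · exact (hc hs).2 p hp q (h hq) hpq)
  have hMc : M.Countable := antichain_countable M hM.prop.2
  refine ⟨⋃ p ∈ M, (p.1 : Set X), hMc.biUnion (fun p _ => Finset.countable_toSet _), ?_⟩
  intro y hy
  have hy' : ∃ K : Finset X, ∀ z ∈ Nb K y, z ∉ U := by
    rw [mem_closure_iff_Nb] at hy
    push Not at hy
    obtain ⟨K, hK⟩ := hy
    refine ⟨K, fun z hz hzU => ?_⟩
    have : z ∈ Nb K y ∩ U := ⟨hz, hzU⟩
    rw [hK] at this
    exact this
  obtain ⟨K, hK⟩ := hy'
  refine ⟨K.filter (fun x => x ∈ ⋃ p ∈ M, (p.1 : Set X)), ?_, ?_⟩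
  · intro x hx
    exact (Finset.mem_filter.mp (by simpa using hx)).2
  intro u hu huU
  obtain ⟨Ku, hKu⟩ := exists_Nb_subset hU huU
  -- the basic set given by u on Ku ∪ K1
  set K1 := K.filter (fun x => x ∈ ⋃ p ∈ M, (p.1 : Set X)) with hK1
  have hcompat : ∃ p ∈ M, ∀ x ∈ p.1, x ∈ Ku ∪ K1 → p.2 x = u.1 x := by
    by_contra hno
    push Not at hno
    have hq : ((Ku ∪ K1, u.1) : Finset X × (X → Bool)) ∉ M := by
      intro h
      obtain ⟨x, hx1, hx2, hx3⟩ := hno _ h
      exact hx3 rfl
    have hins : insert ((Ku ∪ K1, u.1) : Finset X × (X → Bool)) M ∈ Fam := by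
      refine ⟨?_, ?_⟩
      · intro p hp z hz
        rcases Set.mem_insert_iff.mp hp with rfl | hp
        · apply hKu
          intro x hx
          exact hz x (Finset.mem_union_left _ hx)
        · exact hM.prop.1 p hp z hz
      · intro p hp q hq hpq
        rcases Set.mem_insert_iff.mp hp with rfl | hp
        · rcases Set.mem_insert_iff.mp hq with rfl | hq
          · exact absurd rfl hpq
          · obtain ⟨x, hx1, hx2, hx3⟩ := hno q hq
            exact ⟨x, hx2, hx1, fun h => hx3 h.symm⟩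
        · rcases Set.mem_insert_iff.mp hq with rfl | hq
          · obtain ⟨x, hx1, hx2, hx3⟩ := hno p hp
            exact ⟨x, hx1, hx2, hx3⟩
          · exact hM.prop.2 p hp q hq hpq
    have := hM.le_of_ge hins (Set.subset_insert _ _)
    exact hq (this (Set.mem_insert _ _))
  obtain ⟨p, hpM, hp⟩ := hcompat
  -- common extension of p and y on K
  obtain ⟨w, hw⟩ := exists_ext (p.1 ∪ K) (fun x => if x ∈ p.1 then p.2 x else y.1 x)
  have hw1 : w ∈ U := by
    apply hM.prop.1 p hpM
    intro x hx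
    rw [hw x (Finset.mem_union_left _ hx), if_pos hx]
  have hw2 : w ∈ Nb K y := by
    intro x hx
    rw [hw x (Finset.mem_union_right _ hx)]
    by_cases hxp : x ∈ p.1
    · rw [if_pos hxp]
      have hx1 : x ∈ K1 := by
        rw [hK1, Finset.mem_filter]
        refine ⟨hx, ?_⟩
        simp only [mem_iUnion]
        exact ⟨p, hpM, hxp⟩
      rw [hp x hxp (Finset.mem_union_right _ hx1)]
      exact hu x hx1
    · rw [if_neg hxp]
  exact hK w hw2 hw1

/-- In a normal `CB X`, disjoint closed sets are separated by countably many coordinates. -/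
theorem exists_sep [NormalSpace (CB X)] {P Q : Set (CB X)} (hP : IsClosed P) (hQ : IsClosed Q)
    (hPQ : Disjoint P Q) :
    ∃ U V : Set (CB X), IsOpen U ∧ IsOpen V ∧ P ⊆ U ∧ Q ⊆ V ∧
      ∃ C : Set X, C.Countable ∧ ∀ y,
        (∃ K : Finset X, (K : Set X) ⊆ C ∧ ∀ z ∈ Nb K y, z ∉ U) ∨
        (∃ K : Finset X, (K : Set X) ⊆ C ∧ ∀ z ∈ Nb K y, z ∉ V) := by
  obtain ⟨U1, V1, hU1, hV1, hPU1, hQV1, hd⟩ := normal_separation hP hQ hPQ
  obtain ⟨U, hU, hPU, hUU1⟩ := normal_exists_closure_subset hP hU1 hPU1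
  obtain ⟨V, hV, hQV, hVV1⟩ := normal_exists_closure_subset hQ hV1 hQV1
  obtain ⟨CU, hCU, hCU'⟩ := exists_countable_closure hU
  obtain ⟨CV, hCV, hCV'⟩ := exists_countable_closure hV
  refine ⟨U, V, hU, hV, hPU, hQV, CU ∪ CV, hCU.union hCV, ?_⟩
  intro y
  by_cases hy : y ∈ closure U
  · right
    have : y ∉ closure V := fun h => (Set.disjoint_left.mp hd) (hUU1 hy) (hVV1 h)
    obtain ⟨K, hK1, hK2⟩ := hCV' y this
    exact ⟨K, hK1.trans subset_union_right, hK2⟩
  · left
    obtain ⟨K, hK1, hK2⟩ := hCU' y hy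
    exact ⟨K, hK1.trans subset_union_left, hK2⟩

end profinite

section compact

variable [CompactSpace X]

/-- A finite subset of an initial segment image is contained in a closed initial segment image. -/
theorem exists_bound {A : Type} (e : Om → A) (i : Om) (hi : (Set.Iio i).Nonempty) (T : Finset A)
    (hT : (T : Set A) ⊆ e '' Set.Iio i) :
    ∃ k < i, (T : Set A) ⊆ e '' Set.Iic k := by
  classical
  induction T using Finset.induction_on with
  | empty =>
    obtain ⟨k, hk⟩ := hi
    exact ⟨k, hk, by simp⟩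
  | insert a T ha ih =>
    obtain ⟨k, hk, hk'⟩ := ih (fun x hx => hT (by simp only [Finset.coe_insert]; exact Or.inr hx))
    obtain ⟨l, hl, hl'⟩ := hT (show a ∈ ((insert a T : Finset A) : Set A) by simp)
    refine ⟨max k l, max_lt hk hl, ?_⟩
    intro x hx
    simp only [Finset.coe_insert] at hx
    rcases hx with rfl | hx
    · exact ⟨l, Set.mem_Iic.2 (le_max_right _ _), hl'⟩
    · obtain ⟨m, hm, rfl⟩ := hk' hx
      exact ⟨m, Set.mem_Iic.2 (le_trans (Set.mem_Iic.1 hm) (le_max_left _ _)), rfl⟩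

/-- A finite subset of the range is contained in a closed initial segment image. -/
theorem exists_bound' {A : Type} (e : Om → A) (T : Finset A)
    (hT : (T : Set A) ⊆ Set.range e) :
    ∃ k, (T : Set A) ⊆ e '' Set.Iic k := by
  classical
  induction T using Finset.induction_on with
  | empty => exact ⟨Classical.arbitrary Om, by simp⟩
  | insert a T ha ih =>
    obtain ⟨k, hk'⟩ := ih (fun x hx => hT (by simp only [Finset.coe_insert]; exact Or.inr hx))
    obtain ⟨l, hl'⟩ := hT (show a ∈ ((insert a T : Finset A) : Set A) by simp)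
    refine ⟨max k l, ?_⟩
    intro x hx
    simp only [Finset.coe_insert] at hx
    rcases hx with rfl | hx
    · exact ⟨l, Set.mem_Iic.2 (le_max_right _ _), hl'⟩
    · obtain ⟨m, hm, rfl⟩ := hk' hx
      exact ⟨m, Set.mem_Iic.2 (le_trans (Set.mem_Iic.1 hm) (le_max_left _ _)), rfl⟩

/-- Baturov's theorem in the form needed here: a non Lindelöf `CB X` contains a closed discrete
family indexed by `ω₁`. -/
theorem exists_closed_discrete (h : ¬ LindelofSpace (CB X)) :
    ∃ e : Om → CB X, Function.Injective e ∧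
      ∀ y, ∃ K : Finset X, ∀ i, e i ∈ Nb K y → e i = y := by
  classical
  -- an open neighbourhood assignment without countable subcover
  have hG : ∃ G : CB X → Set (CB X), (∀ y, IsOpen (G y)) ∧ (∀ y, y ∈ G y) ∧
      ∀ S : Set (CB X), S.Countable → ∃ z, z ∉ ⋃ y ∈ S, G y := by
    by_contra hno
    push Not at hno
    apply h
    constructor
    rw [isLindelof_iff_countable_subcover]
    intro ι U hU hcov
    have hy : ∀ y : CB X, ∃ i, y ∈ U i := by
      intro y
      simpa using hcov (Set.mem_univ y)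
    choose f hf using hy
    obtain ⟨S, hS, hS'⟩ := hno (fun y => U (f y)) (fun y => hU _) (fun y => hf y)
    refine ⟨f '' S, hS.image f, ?_⟩
    intro z _
    have := hS' z
    simp only [mem_iUnion] at this ⊢
    obtain ⟨y, hy, hz⟩ := this
    exact ⟨f y, ⟨y, hy, rfl⟩, hz⟩
  obtain ⟨G, hGo, hGm, hGc⟩ := hG
  obtain ⟨e, he⟩ := exists_rec (A := CB X) (fun _ S a => a ∉ ⋃ y ∈ W S, G y)
    (fun _ S hS => hGc _ (W_countable hS))
  have he' : ∀ i, ∀ y ∈ W (e '' Set.Iio i), e i ∉ G y := by
    intro i y hy hmem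
    apply he i
    simp only [mem_iUnion]
    exact ⟨y, hy, hmem⟩
  have hinj : Function.Injective e := by
    intro i j hij
    by_contra hne
    rcases lt_or_gt_of_ne hne with hlt | hlt
    · apply he' j (e i) (subset_W _ ⟨i, hlt, rfl⟩)
      rw [← hij]
      exact hGm _
    · apply he' i (e j) (subset_W _ ⟨j, hlt, rfl⟩)
      rw [hij]
      exact hGm _
  -- if y is determined by a closed initial segment, later elements avoid G y
  have hlate : ∀ (y : CB X) (k : Om) (T : Finset (CB X)), (T : Set (CB X)) ⊆ e '' Set.Iic k →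
      y ∈ Det (T : Set (CB X)) → ∀ l, k < l → e l ∉ G y := by
    intro y k T hT hy l hl
    apply he' l y
    refine ⟨T, ?_, hy⟩
    intro t ht
    obtain ⟨m, hm, rfl⟩ := hT ht
    exact ⟨m, lt_of_le_of_lt hm hl, rfl⟩
  -- claim
  have hclaim : ∀ i, ∀ y, y ∉ closure ((e '' Set.Iic i) \ {y}) := by
    intro i
    induction i using WellFoundedLT.induction with
    | ind i ih =>
      intro y hy
      have hsplit : (e '' Set.Iic i) \ {y} = ((e '' Set.Iio i) \ {y}) ∪ ({e i} \ {y}) := by
        ext z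
        constructor
        · rintro ⟨⟨k, hk, rfl⟩, hz⟩
          rcases lt_or_eq_of_le (show k ≤ i from hk) with h1 | h1
          · exact Or.inl ⟨⟨k, h1, rfl⟩, hz⟩
          · subst h1
            exact Or.inr ⟨rfl, hz⟩
        · rintro (⟨⟨k, hk, rfl⟩, hz⟩ | ⟨hz1, hz⟩)
          · exact ⟨⟨k, Set.mem_Iic.2 (le_of_lt (Set.mem_Iio.1 hk)), rfl⟩, hz⟩
          · rw [Set.mem_singleton_iff] at hz1
            exact ⟨⟨i, le_refl i, hz1.symm⟩, hz⟩
      rw [hsplit, closure_union] at hy
      rcases hy with hy | hy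
      · obtain ⟨T, hT, hTy⟩ := closure_subset_W hy
        have hne : (Set.Iio i).Nonempty := by
          obtain ⟨z, -, hz⟩ := (mem_closure_iff_Nb.mp hy ∅)
          obtain ⟨⟨k, hk, -⟩, -⟩ := hz
          exact ⟨k, hk⟩
        obtain ⟨k, hk, hTk⟩ := exists_bound e i hne T (hT.trans sdiff_subset)
        have hl := hlate y k T hTk hTy
        apply ih k hk y
        rw [mem_closure_iff]
        intro O hO hyO
        obtain ⟨z, ⟨hz1, hz2⟩, hz3⟩ := mem_closure_iff.mp hy (O ∩ G y) (hO.inter (hGo y))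
          ⟨hyO, hGm y⟩
        obtain ⟨⟨l, hl', rfl⟩, hz4⟩ := hz3
        refine ⟨e l, hz1, ⟨l, ?_, rfl⟩, hz4⟩
        by_contra hkl
        exact hl l (not_le.mp hkl) hz2
      · have hfin : ({e i} \ {y} : Set (CB X)).Finite := (Set.finite_singleton _).subset sdiff_subset
        rw [hfin.isClosed.closure_eq] at hy
        exact hy.2 rfl
  have hclaim' : ∀ y, y ∉ closure (Set.range e \ {y}) := by
    intro y hy
    obtain ⟨T, hT, hTy⟩ := closure_subset_W hy
    obtain ⟨k, hTk⟩ := exists_bound' e T (hT.trans sdiff_subset)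
    have hl := hlate y k T hTk hTy
    apply hclaim k y
    rw [mem_closure_iff]
    intro O hO hyO
    obtain ⟨z, ⟨hz1, hz2⟩, hz3⟩ := mem_closure_iff.mp hy (O ∩ G y) (hO.inter (hGo y))
      ⟨hyO, hGm y⟩
    obtain ⟨⟨l, rfl⟩, hz4⟩ := hz3
    refine ⟨e l, hz1, ⟨l, ?_, rfl⟩, hz4⟩
    by_contra hkl
    exact hl l (not_le.mp hkl) hz2
  refine ⟨e, hinj, ?_⟩
  intro y
  have := hclaim' y
  rw [mem_closure_iff_Nb] at this
  push Not at this
  obtain ⟨K, hK⟩ := this
  refine ⟨K, fun i hi => ?_⟩
  by_contra hne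
  have h2 : e i ∈ Nb K y ∩ (Set.range e \ {y}) := ⟨hi, ⟨i, rfl⟩, hne⟩
  rw [hK] at h2
  exact h2

/-- Selection of a subfamily with disjoint closures. -/
theorem exists_selection {J : Type} [Uncountable J] (p : J → CB X) (F : J → Set (CB X))
    (hF : ∀ j, (F j).Countable) (hpF : ∀ j, p j ∉ closure (F j))
    (hloc : ∀ y : CB X, ∃ V : Set (CB X), IsOpen V ∧ y ∈ V ∧
      {j | p j ∈ V ∨ (V ∩ F j).Nonempty}.Countable) :
    ∃ s : Om → J, Function.Injective s ∧ ∀ i, p (s i) ∉ closure (⋃ k, F (s k)) := by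
  classical
  choose V hVo hVm hVc using hloc
  let B : Set J → Set (CB X) := fun S => ⋃ k ∈ S, ({p k} ∪ F k)
  have hBc : ∀ S : Set J, S.Countable → (B S).Countable := by
    intro S hS
    exact hS.biUnion (fun k _ => (Set.countable_singleton _).union (hF k))
  obtain ⟨s, hs⟩ := exists_rec (A := J)
    (fun _ S j => ∀ y ∈ W (B S), j ∉ {j | p j ∈ V y ∨ (V y ∩ F j).Nonempty}) (by
      intro _ S hS
      by_contra hno
      push Not at hno
      have hc : (⋃ y ∈ W (B S), {j | p j ∈ V y ∨ (V y ∩ F j).Nonempty}).Countable :=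
        (W_countable (hBc S hS)).biUnion (fun y _ => hVc y)
      have huniv : (Set.univ : Set J) ⊆
          (⋃ y ∈ W (B S), {j | p j ∈ V y ∨ (V y ∩ F j).Nonempty}) := by
        intro j _
        obtain ⟨y, hy, hj⟩ := hno j
        simp only [mem_iUnion]
        exact ⟨y, hy, hj⟩
      exact Set.not_countable_univ (hc.mono huniv))
  have hinj : Function.Injective s := by
    intro i j hij
    by_contra hne
    have key : ∀ i j, i < j → s i ≠ s j := by
      intro i j hlt hij
      apply hs j (p (s i))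
      · apply subset_W
        simp only [B, mem_iUnion]
        exact ⟨s i, ⟨i, hlt, rfl⟩, Or.inl rfl⟩
      · left
        rw [← hij]
        exact hVm _
    rcases lt_or_gt_of_ne hne with hlt | hlt
    · exact key i j hlt hij
    · exact key j i hlt hij.symm
  refine ⟨s, hinj, ?_⟩
  intro i hi
  set y := p (s i) with hy
  have h1 : y ∈ closure (⋃ k ∈ Set.Iio i, F (s k)) := by
    have hnot : y ∉ closure (F (s i)) := hpF (s i)
    have h2 : y ∈ closure ((⋃ k ∈ Set.Iio i, F (s k)) ∪ F (s i)) := by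
      rw [mem_closure_iff]
      intro O hO hyO
      obtain ⟨z, ⟨hz1, hz2⟩, hz3⟩ := mem_closure_iff.mp hi (O ∩ V y) (hO.inter (hVo y))
        ⟨hyO, hVm y⟩
      simp only [mem_iUnion] at hz3
      obtain ⟨k, hk⟩ := hz3
      refine ⟨z, hz1, ?_⟩
      rcases lt_trichotomy k i with hlt | heq | hgt
      · left
        simp only [mem_iUnion]
        exact ⟨k, hlt, hk⟩
      · right
        rw [← heq]
        exact hk
      · exfalso
        apply hs k y
        · apply subset_W
          simp only [B, mem_iUnion]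
          exact ⟨s i, ⟨i, hgt, rfl⟩, Or.inl rfl⟩
        · right
          exact ⟨z, hz2, hk⟩
    rw [closure_union] at h2
    rcases h2 with h2 | h2
    · exact h2
    · exact absurd h2 hnot
  have h3 : y ∈ W (B (s '' Set.Iio i)) := by
    apply W_mono _ (closure_subset_W h1)
    intro z hz
    simp only [mem_iUnion] at hz
    obtain ⟨k, hk, hz⟩ := hz
    simp only [B, mem_iUnion]
    exact ⟨s k, ⟨k, hk, rfl⟩, Or.inr hz⟩
  apply hs i y h3
  left
  exact hVm y

end compact

end Pool.Agent.Lib.MP_d2cc73_gt
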