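import Mathlib
import Pool.Agent.Lib.MP_d2cc73_gt.Sep

/-! Perturbation by families of clopen sets shrinking to `G_δ` sets. -/

set_option autoImplicit false

namespace Pool.Agent.Lib.MP_d2cc73_gt

open Set Topology

variable {X : Type} [TopologicalSpace X]

/-- `b ≤ c` as sets. -/
def Below (b c : CB X) : Prop := ∀ x, b.1 x = true → c.1 x = true

theorem isClopen_H (c : CB X) (b : Om → CB X) (x : X) (i : Om) (s : Bool) (a : Finset Om) :
    IsClopen {z | c.1 z = true ∧ (∀ k ∈ a, (b k).1 z = (b k).1 x) ∧ (b i).1 z = s} := by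
  apply IsClopen.inter (isClopen_eval c true)
  apply IsClopen.inter _ (isClopen_eval (b i) s)
  have : {z | ∀ k ∈ a, (b k).1 z = (b k).1 x} = ⋂ k ∈ a, {z | (b k).1 z = (b k).1 x} := by
    ext z
    simp
  change IsClopen {z | ∀ k ∈ a, (b k).1 z = (b k).1 x}
  rw [this]
  exact isClopen_biInter_finset (fun k _ => isClopen_eval _ _)

theorem exists_Gdelta_family [CompactSpace X] (c : CB X)
    (hc : ¬ {b : CB X | Below b c}.Countable) :
    ∃ (x : Om → X) (R : Om → Set X) (H : Om → Set (CB X)),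
      (∀ i, (H i).Countable) ∧
      (∀ i, ∀ h ∈ H i, h.1 (x i) = true ∧ Below h c) ∧
      (∀ i, ∀ K : Finset X, (∀ z ∈ K, z ∉ R i) → ∃ h ∈ H i, ∀ z ∈ K, h.1 z = false) ∧
      (∀ z, {i | z ∈ R i}.Countable) := by
  classical
  obtain ⟨b, hb⟩ := exists_rec (A := CB X) (fun _ S a => Below a c ∧ a ∉ W (insert c S)) (by
    intro _ S hS
    by_contra hno
    push Not at hno
    apply hc
    exact (W_countable (hS.insert c)).mono hno)
  -- points
  have hpts : ∀ i, ∃ x : Bool → X, (∀ s, c.1 (x s) = true) ∧ (∀ s, (b i).1 (x s) = s) ∧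
      (∀ k < i, (b k).1 (x true) = (b k).1 (x false)) := by
    intro i
    have hdet : b i ∉ Det (insert c (b '' Set.Iio i)) := fun h => (hb i).2 (Det_subset_W h)
    have h2 : ∃ x x' : X, (∀ t ∈ insert c (b '' Set.Iio i), t.1 x = t.1 x') ∧
        (b i).1 x ≠ (b i).1 x' := by
      by_contra hno
      apply hdet
      intro x x' h
      by_contra hne
      exact hno ⟨x, x', h, hne⟩
    obtain ⟨x, x', h, hne⟩ := h2
    have h3 : ∃ x x' : X, (∀ t ∈ insert c (b '' Set.Iio i), t.1 x = t.1 x') ∧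
        (b i).1 x = true ∧ (b i).1 x' = false := by
      by_cases hx : (b i).1 x = true
      · refine ⟨x, x', h, hx, ?_⟩
        rw [hx] at hne
        cases h' : (b i).1 x'
        · rfl
        · exact absurd h'.symm hne
      · simp only [Bool.not_eq_true] at hx
        refine ⟨x', x, fun t ht => (h t ht).symm, ?_, hx⟩
        rw [hx] at hne
        cases h' : (b i).1 x'
        · exact absurd h'.symm hne
        · rfl
    obtain ⟨x, x', h, h1, h2⟩ := h3
    have hcx : c.1 x = true := (hb i).1 x h1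
    refine ⟨fun s => if s = true then x else x', ?_, ?_, ?_⟩
    · intro s
      cases s
      · simp only [Bool.false_eq_true, if_false]
        rw [← h c (Set.mem_insert _ _)]
        exact hcx
      · simpa using hcx
    · intro s
      cases s
      · simpa using h2
      · simpa using h1
    · intro k hk
      simpa using h (b k) (Set.mem_insert_of_mem _ ⟨k, hk, rfl⟩)
  choose x hxc hxb hxk using hpts
  -- the sets
  let R : Bool → Om → Set X := fun s i =>
    {z | c.1 z = true ∧ (∀ k < i, (b k).1 z = (b k).1 (x i s)) ∧ (b i).1 z = s}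
  let H : Bool → Om → Set (CB X) := fun s i =>
    {h | ∃ a : Finset Om, (∀ k ∈ a, k < i) ∧ h = ofClopen _ (isClopen_H c b (x i s) i s a)}
  have hHc : ∀ s i, (H s i).Countable := by
    intro s i
    have hfin : {a : Finset Om | ∀ k ∈ a, k < i}.Countable := by
      have h := Set.countable_ofPred_finite_subset (countable_Iio_Om i)
      have h2 : {a : Finset Om | ∀ k ∈ a, k < i} =
          (fun a : Finset Om => (a : Set Om)) ⁻¹' {t | t.Finite ∧ t ⊆ Set.Iio i} := by
        ext a
        constructor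
        · intro ha
          exact ⟨a.finite_toSet, fun k hk => ha k hk⟩
        · rintro ⟨-, ha⟩ k hk
          exact ha hk
      rw [h2]
      exact h.preimage Finset.coe_injective
    have : H s i = (fun a : Finset Om => ofClopen _ (isClopen_H c b (x i s) i s a)) ''
        {a : Finset Om | ∀ k ∈ a, k < i} := by
      ext h
      constructor
      · rintro ⟨a, ha, rfl⟩
        exact ⟨a, ha, rfl⟩
      · rintro ⟨a, ha, rfl⟩
        exact ⟨a, ha, rfl⟩
    rw [this]
    exact hfin.image _
  have hHx : ∀ s i, ∀ h ∈ H s i, h.1 (x i s) = true ∧ Below h c := by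
    rintro s i h ⟨a, ha, rfl⟩
    refine ⟨?_, ?_⟩
    · rw [ofClopen_apply_true]
      exact ⟨hxc i s, fun k _ => rfl, hxb i s⟩
    · intro z hz
      rw [ofClopen_apply_true] at hz
      exact hz.1
  have hHR : ∀ s i, ∀ K : Finset X, (∀ z ∈ K, z ∉ R s i) →
      ∃ h ∈ H s i, ∀ z ∈ K, h.1 z = false := by
    intro s i K hK
    have h1 : ∀ z ∈ K, ∃ a : Finset Om, (∀ k ∈ a, k < i) ∧
        ¬ (c.1 z = true ∧ (∀ k ∈ a, (b k).1 z = (b k).1 (x i s)) ∧ (b i).1 z = s) := by
      intro z hz
      by_cases h : ∃ k < i, (b k).1 z ≠ (b k).1 (x i s)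
      · obtain ⟨k, hk, hk'⟩ := h
        refine ⟨{k}, by simpa using hk, ?_⟩
        rintro ⟨-, h2, -⟩
        exact hk' (h2 k (by simp))
      · push Not at h
        refine ⟨∅, by simp, ?_⟩
        rintro ⟨h1, -, h3⟩
        exact hK z hz ⟨h1, h, h3⟩
    choose! A hA1 hA2 using h1
    refine ⟨_, ⟨K.biUnion A, ?_, rfl⟩, ?_⟩
    · intro k hk
      rw [Finset.mem_biUnion] at hk
      obtain ⟨z, hz, hk⟩ := hk
      exact hA1 z hz k hk
    · intro z hz
      rw [ofClopen_apply_false]
      rintro ⟨h1, h2, h3⟩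
      exact hA2 z hz ⟨h1, fun k hk => h2 k (Finset.mem_biUnion.2 ⟨z, hz, hk⟩), h3⟩
  by_cases hcase : ∀ z, {i | z ∈ R true i}.Countable
  · exact ⟨fun i => x i true, R true, H true, hHc true, hHx true, hHR true, hcase⟩
  · push Not at hcase
    obtain ⟨z, hz⟩ := hcase
    obtain ⟨f, hf, hfz⟩ := exists_inj_Om_set _ hz
    refine ⟨fun i => x (f i) false, fun i => R false (f i), fun i => H false (f i),
      fun i => hHc false _, fun i => hHx false _, fun i => hHR false _, ?_⟩
    intro w
    apply Set.Subsingleton.countable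
    -- pairwise disjointness
    have key : ∀ i j : Om, z ∈ R true i → z ∈ R true j → w ∈ R false i → w ∈ R false j →
        ¬ i < j := by
      intro i j hi hj hwi hwj hlt
      have a1 : (b i).1 w = (b i).1 (x j false) := hwj.2.1 i hlt
      have a2 : (b i).1 z = (b i).1 (x j true) := hj.2.1 i hlt
      have a3 : (b i).1 z = true := hi.2.2
      have a4 : (b i).1 w = false := hwi.2.2
      have a5 : (b i).1 (x j true) = (b i).1 (x j false) := hxk j i hlt
      rw [a1, ← a5, ← a2, a3] at a4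
      simp at a4
    intro i hi j hj
    apply hf
    rcases lt_trichotomy (f i) (f j) with h | h | h
    · exact absurd h (key _ _ (hfz i) (hfz j) hi hj)
    · exact h
    · exact absurd h (key _ _ (hfz j) (hfz i) hj hi)

section claimA

variable [CompactSpace X] [T2Space X] [TotallyDisconnectedSpace X]

theorem claimA [NormalSpace (CB X)] {J : Type} (e : J → CB X)
    (hd : ∀ y, ∃ K : Finset X, ∀ j, e j ∈ Nb K y → e j = y)
    (c : CB X) (hc : ¬ {b : CB X | Below b c}.Countable) :
    {j | ∃ K : Finset X, (∀ x ∈ K, c.1 x = false) ∧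
      {k | e k ∈ Nb K (e j)}.Countable}.Countable := by
  classical
  by_contra hbad
  obtain ⟨f, hf, hfbad⟩ := exists_inj_Om_set _ hbad
  set O : Set (CB X) := {y | ∃ K : Finset X, (∀ x ∈ K, c.1 x = false) ∧
      {k | e k ∈ Nb K y}.Countable} with hO
  have hOo : IsOpen O := by
    rw [isOpen_iff_mem_nhds]
    rintro y ⟨K, hK1, hK2⟩
    refine Filter.mem_of_superset ((isOpen_Nb K y).mem_nhds (self_mem_Nb K y)) ?_
    intro z hz
    refine ⟨K, hK1, ?_⟩
    rw [Nb_eq_of_mem hz]
    exact hK2
  have hE' : IsClosed (e '' Set.range f) := isClosed_image_of_discrete hd _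
  obtain ⟨U, V, hU, hV, hEU, hOV, C, hC, hsep⟩ := exists_sep hE' hOo.isClosed_compl (by
    rw [Set.disjoint_left]
    rintro _ ⟨_, ⟨i, rfl⟩, rfl⟩ h
    exact h (hfbad i))
  have hK' : ∀ i, ∃ K : Finset X, (K : Set X) ⊆ C ∧ ∀ z ∈ Nb K (e (f i)), z ∉ V := by
    intro i
    rcases hsep (e (f i)) with ⟨K, hK1, hK2⟩ | h
    · exact absurd (hEU ⟨f i, ⟨i, rfl⟩, rfl⟩) (hK2 _ (self_mem_Nb K _))
    · exact h
  choose K' hK'C hK'V using hK'
  obtain ⟨x, R, H, hHc, hHx, hHR, hR⟩ := exists_Gdelta_family c hc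
  -- index set
  let Jset : Set Om := {i | ∀ z ∈ C, z ∉ R i}
  have hJc : (Jsetᶜ).Countable := by
    have : Jsetᶜ ⊆ ⋃ z ∈ C, {i | z ∈ R i} := by
      intro i hi
      have hi' : ¬ (∀ z ∈ C, z ∉ R i) := hi
      push Not at hi'
      obtain ⟨z, hz, hzi⟩ := hi'
      simp only [mem_iUnion]
      exact ⟨z, hz, hzi⟩
    exact (hC.biUnion (fun z _ => hR z)).mono this
  have hJ : ¬ Jset.Countable := by
    intro h
    have : (Set.univ : Set Om).Countable := by
      rw [← Set.union_compl_self Jset]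
      exact h.union hJc
    exact Set.not_countable_univ this
  have : Uncountable Jset := by
    rw [← not_countable_iff]
    intro h
    exact hJ (Set.countable_coe_iff.mp h)
  let p : Jset → CB X := fun i => e (f i.1)
  let F : Jset → Set (CB X) := fun i =>
    {y | (∃ h ∈ H i.1, y = comb xor (e (f i.1)) h) ∧ y ∈ Nb (K' i.1) (e (f i.1))}
  have hFc : ∀ i, (F i).Countable := by
    intro i
    apply Set.Countable.mono _ ((hHc i.1).image (fun h => comb xor (e (f i.1)) h))
    rintro y ⟨⟨h, hh, rfl⟩, -⟩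
    exact ⟨h, hh, rfl⟩
  have hpF : ∀ i, p i ∉ closure (F i) := by
    intro i hi
    obtain ⟨y, hy1, ⟨h, hh, rfl⟩, -⟩ := mem_closure_iff_Nb.mp hi {x i.1}
    have h1 := hy1 (x i.1) (by simp)
    have h2 := (hHx i.1 h hh).1
    change xor ((e (f i.1)).1 (x i.1)) (h.1 (x i.1)) = (e (f i.1)).1 (x i.1) at h1
    rw [h2] at h1
    revert h1
    cases (e (f i.1)).1 (x i.1) <;> simp
  have hloc : ∀ y : CB X, ∃ V' : Set (CB X), IsOpen V' ∧ y ∈ V' ∧
      {i | p i ∈ V' ∨ (V' ∩ F i).Nonempty}.Countable := by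
    intro y
    by_cases hy : y ∈ O
    · obtain ⟨K, hK1, hK2⟩ := hy
      refine ⟨Nb K y, isOpen_Nb K y, self_mem_Nb K y, ?_⟩
      have hsub : {i | p i ∈ Nb K y ∨ (Nb K y ∩ F i).Nonempty} ⊆
          (fun i : Jset => f i.1) ⁻¹' {k | e k ∈ Nb K y} := by
        rintro i (hi | ⟨z, hz1, ⟨h, hh, rfl⟩, -⟩)
        · exact hi
        · intro w hw
          have h1 := hz1 w hw
          change xor ((e (f i.1)).1 w) (h.1 w) = y.1 w at h1
          have h2 : h.1 w = false := by
            by_contra hne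
            simp only [Bool.not_eq_false] at hne
            have := (hHx i.1 h hh).2 w hne
            rw [hK1 w hw] at this
            simp at this
          rw [h2, Bool.xor_false] at h1
          exact h1
      exact (hK2.preimage (hf.comp Subtype.val_injective)).mono hsub
    · refine ⟨V, hV, hOV hy, ?_⟩
      have : {i | p i ∈ V ∨ (V ∩ F i).Nonempty} = ∅ := by
        ext i
        simp only [Set.mem_empty_iff_false, iff_false]
        rintro (hi | ⟨z, hz1, -, hz2⟩)
        · exact hK'V i.1 _ (self_mem_Nb _ _) hi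
        · exact hK'V i.1 z hz2 hz1
      rw [this]
      exact Set.countable_empty
  obtain ⟨s, hs, hsel⟩ := exists_selection p F hFc hpF hloc
  have hP : IsClosed (e '' Set.range (fun i => f (s i).1)) := isClosed_image_of_discrete hd _
  obtain ⟨U', V', hU', hV', hPU', hQV', C', hC', hsep'⟩ := exists_sep hP
    (isClosed_closure (s := ⋃ k, F (s k))) (by
    rw [Set.disjoint_left]
    rintro _ ⟨_, ⟨i, rfl⟩, rfl⟩ h
    exact hsel i h)
  -- choose a good index
  have hgood : ∃ i : Om, ∀ z ∈ C', z ∉ R (s i).1 := by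
    by_contra hno
    push Not at hno
    have : (Set.univ : Set Om) ⊆ ⋃ z ∈ C', (fun i => (s i).1) ⁻¹' {i | z ∈ R i} := by
      intro i _
      obtain ⟨z, hz, hzi⟩ := hno i
      simp only [mem_iUnion]
      exact ⟨z, hz, hzi⟩
    have hcount : (⋃ z ∈ C', (fun i => (s i).1) ⁻¹' {i | z ∈ R i}).Countable :=
      hC'.biUnion (fun z _ => (hR z).preimage (Subtype.val_injective.comp hs))
    exact Set.not_countable_univ (hcount.mono this)
  obtain ⟨i, hi⟩ := hgood
  rcases hsep' (e (f (s i).1)) with ⟨K, hK1, hK2⟩ | ⟨K, hK1, hK2⟩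
  · exact hK2 _ (self_mem_Nb _ _) (hPU' ⟨_, ⟨i, rfl⟩, rfl⟩)
  · obtain ⟨h, hh, hhK⟩ := hHR (s i).1 (K ∪ K' (s i).1) (by
      intro z hz
      rw [Finset.mem_union] at hz
      rcases hz with hz | hz
      · exact hi z (hK1 hz)
      · exact (s i).2 z (hK'C _ hz))
    have hmem : comb xor (e (f (s i).1)) h ∈ F (s i) := by
      refine ⟨⟨h, hh, rfl⟩, ?_⟩
      intro w hw
      change xor ((e (f (s i).1)).1 w) (h.1 w) = (e (f (s i).1)).1 w
      rw [hhK w (Finset.mem_union_right _ hw), Bool.xor_false]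
    apply hK2 (comb xor (e (f (s i).1)) h)
    · intro w hw
      change xor ((e (f (s i).1)).1 w) (h.1 w) = (e (f (s i).1)).1 w
      rw [hhK w (Finset.mem_union_left _ hw), Bool.xor_false]
    · apply hQV'
      apply subset_closure
      simp only [mem_iUnion]
      exact ⟨i, hmem⟩

end claimA

end Pool.Agent.Lib.MP_d2cc73_gt
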