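import Mathlib
import Pool.Agent.Lib.MP_d2cc73_gt.Perturb

/-! Normality implies the Lindelöf property. -/

set_option autoImplicit false

namespace Pool.Agent.Lib.MP_d2cc73_gt

open Set Topology

variable {X : Type} [TopologicalSpace X]

/-- The meet of two clopen sets. -/
def meet (y z : CB X) : CB X := comb and y z

/-- `c` is small for the family `e` if only countably many traces of `e` on `c` occur. -/
def Small {J : Type} (e : J → CB X) (c : CB X) : Prop :=
  (Set.range (fun j => meet (e j) c)).Countable

theorem meet_apply (y z : CB X) (x : X) : (meet y z).1 x = (y.1 x && z.1 x) := rfl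

/-- A function with countable range determines a function with countable range. -/
theorem countable_range_of_factor {J A B : Type} (G : J → A) (g : J → B)
    (hG : (Set.range G).Countable) (h : ∀ i j, G i = G j → g i = g j) :
    (Set.range g).Countable := by
  classical
  by_cases hJ : Nonempty J
  · obtain ⟨j0⟩ := hJ
    let φ : A → B := fun a => if h : ∃ j, G j = a then g h.choose else g j0
    apply Set.Countable.mono _ (hG.image φ)
    rintro _ ⟨j, rfl⟩
    refine ⟨G j, ⟨j, rfl⟩, ?_⟩
    have hex : ∃ k, G k = G j := ⟨j, rfl⟩
    have : φ (G j) = g hex.choose := dif_pos hex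
    rw [this]
    exact h _ _ hex.choose_spec
  · rw [not_nonempty_iff] at hJ
    exact (Set.countable_range g)

theorem small_cover {J : Type} {e : J → CB X} (S : Set (CB X)) (hS : S.Finite)
    (hsmall : ∀ c ∈ S, Small e c) (d : CB X) (hd : ∀ x, d.1 x = true → ∃ c ∈ S, c.1 x = true) :
    Small e d := by
  classical
  have : Finite S := hS
  let G : J → (S → CB X) := fun j c => meet (e j) c.1
  apply countable_range_of_factor G
  · have h1 : (Set.pi Set.univ (fun c : S => Set.range (fun j => meet (e j) c.1))).Countable :=
      Set.countable_univ_pi (fun c => hsmall c.1 c.2)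
    apply h1.mono
    rintro _ ⟨j, rfl⟩ c _
    exact ⟨j, rfl⟩
  · intro i j hij
    apply Subtype.ext
    funext x
    change ((e i).1 x && d.1 x) = ((e j).1 x && d.1 x)
    by_cases hx : d.1 x = true
    · obtain ⟨c, hc, hcx⟩ := hd x hx
      have h1 : meet (e i) c = meet (e j) c := congrFun hij ⟨c, hc⟩
      have h2 : (meet (e i) c).1 x = (meet (e j) c).1 x := by rw [h1]
      rw [meet_apply, meet_apply, hcx, Bool.and_true, Bool.and_true] at h2
      rw [h2]
    · simp only [Bool.not_eq_true] at hx
      rw [hx, Bool.and_false, Bool.and_false]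

theorem small_comp {J J' : Type} {e : J → CB X} {c : CB X} (h : Small e c) (f : J' → J) :
    Small (fun j => e (f j)) c := by
  apply h.mono
  rintro _ ⟨j, rfl⟩
  exact ⟨f j, rfl⟩

/-- An enumeration of `Finset Om × Om` by `Om`. -/
theorem exists_enum : ∃ s : Om → Finset Om × Om, Function.Surjective s := by
  have h1 : Cardinal.mk (Finset Om × Om) = Cardinal.mk Om := by
    rw [Cardinal.mk_prod, Cardinal.lift_id, Cardinal.lift_id, Cardinal.mk_finset_of_infinite]
    exact Cardinal.mul_eq_self (Cardinal.aleph0_le_mk Om)
  obtain ⟨φ⟩ := Cardinal.eq.mp h1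
  exact ⟨φ.symm, φ.symm.surjective⟩

section main

variable [CompactSpace X] [T2Space X] [TotallyDisconnectedSpace X]

/-- Case 2: all differences are small. -/
theorem case_two [NormalSpace (CB X)] (e : Om → CB X) (he : Function.Injective e)
    (hd : ∀ y, ∃ K : Finset X, ∀ j, e j ∈ Nb K y → e j = y)
    (hsmall : ∀ i j, Small e (comb xor (e i) (e j))) : False := by
  classical
  let i0 : Om := Classical.arbitrary Om
  let d : Om → CB X := fun i => comb xor (e i) (e i0)
  have hdapp : ∀ i x, (d i).1 x = xor ((e i).1 x) ((e i0).1 x) := fun _ _ => rfl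
  let S : Finset Om × Om → Set Om := fun q =>
    {k | ∀ i ∈ q.1, meet (e k) (d i) = meet (e q.2) (d i)}
  obtain ⟨s, hs⟩ := exists_enum
  obtain ⟨P, Q, hPQ, hsplit⟩ := exists_split s hs S
  obtain ⟨U, V, hU, hV, hPU, hQV, C, hC, hsep⟩ := exists_sep
    (isClosed_image_of_discrete hd P) (isClosed_image_of_discrete hd Q) (by
      rw [Set.disjoint_left]
      rintro _ ⟨i, hi, rfl⟩ ⟨j, hj, hij⟩
      have := he hij
      subst this
      exact (Set.disjoint_left.mp hPQ) hi hj)
  -- choice of indices
  have hchoice : ∃ ι : X → Om, ∀ x, (∃ i, (d i).1 x = true) → (d (ι x)).1 x = true := by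
    have h1 : ∀ x, ∃ j, (∃ i, (d i).1 x = true) → (d j).1 x = true := by
      intro x
      by_cases h : ∃ i, (d i).1 x = true
      · obtain ⟨i, hi⟩ := h
        exact ⟨i, fun _ => hi⟩
      · exact ⟨i0, fun h' => absurd h' h⟩
    choose ι hι using h1
    exact ⟨ι, hι⟩
  obtain ⟨ι, hι⟩ := hchoice
  -- for each finite a, only countably many ζ have countable class
  have hbad : ∀ a : Finset Om, {ζ | (S (a, ζ)).Countable}.Countable := by
    intro a
    let G : Om → (a → CB X) := fun k i => meet (e k) (d i.1)
    have hG : (Set.range G).Countable := by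
      have h1 : (Set.pi Set.univ (fun i : a => Set.range (fun k => meet (e k) (d i.1)))).Countable :=
        Set.countable_univ_pi (fun i => hsmall i.1 i0)
      apply h1.mono
      rintro _ ⟨j, rfl⟩ c _
      exact ⟨j, rfl⟩
    have hfib : ∀ ζ, S (a, ζ) = G ⁻¹' {G ζ} := by
      intro ζ
      ext k
      constructor
      · intro hk
        funext i
        exact hk i.1 i.2
      · intro hk i hi
        exact congrFun (show G k = G ζ from hk) ⟨i, hi⟩
    have hsub : {ζ | (S (a, ζ)).Countable} ⊆
        ⋃ v ∈ {v ∈ Set.range G | (G ⁻¹' {v}).Countable}, G ⁻¹' {v} := by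
      intro ζ hζ
      simp only [mem_iUnion]
      refine ⟨G ζ, ⟨⟨ζ, rfl⟩, ?_⟩, rfl⟩
      rw [← hfib ζ]
      exact hζ
    apply Set.Countable.mono hsub
    apply Set.Countable.biUnion (hG.mono (fun v hv => hv.1))
    intro v hv
    exact hv.2
  -- choose ζ
  have hJ : (ι '' C).Countable := hC.image ι
  have hfin : {a : Finset Om | (a : Set Om) ⊆ ι '' C}.Countable := by
    have h := Set.countable_ofPred_finite_subset hJ
    have h2 : {a : Finset Om | (a : Set Om) ⊆ ι '' C} =
        (fun a : Finset Om => (a : Set Om)) ⁻¹' {t | t.Finite ∧ t ⊆ ι '' C} := by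
      ext a
      constructor
      · intro ha
        exact ⟨a.finite_toSet, ha⟩
      · rintro ⟨-, ha⟩
        exact ha
    rw [h2]
    exact h.preimage Finset.coe_injective
  have hζ : ∃ ζ : Om, ∀ a : Finset Om, (a : Set Om) ⊆ ι '' C → ¬ (S (a, ζ)).Countable := by
    by_contra hno
    push Not at hno
    have : (Set.univ : Set Om) ⊆ ⋃ a ∈ {a : Finset Om | (a : Set Om) ⊆ ι '' C},
        {ζ | (S (a, ζ)).Countable} := by
      intro ζ _
      obtain ⟨a, ha, ha'⟩ := hno ζ
      simp only [mem_iUnion]
      exact ⟨a, ha, ha'⟩
    exact Set.not_countable_univ ((hfin.biUnion (fun a _ => hbad a)).mono this)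
  obtain ⟨ζ, hζ⟩ := hζ
  have key : ∀ K : Finset X, (K : Set X) ⊆ C → ∀ k, k ∈ S (K.image ι, ζ) →
      e k ∈ Nb K (e ζ) := by
    intro K hK k hk x hx
    by_cases hex : ∃ i, (d i).1 x = true
    · have h1 := hι x hex
      have h2 : meet (e k) (d (ι x)) = meet (e ζ) (d (ι x)) :=
        hk (ι x) (Finset.mem_image_of_mem ι hx)
      have h3 : (meet (e k) (d (ι x))).1 x = (meet (e ζ) (d (ι x))).1 x := by rw [h2]
      rwa [meet_apply, meet_apply, h1, Bool.and_true, Bool.and_true] at h3
    · push Not at hex
      have h1 := hex k
      have h2 := hex ζ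
      rw [hdapp] at h1 h2
      revert h1 h2
      cases (e k).1 x <;> cases (e ζ).1 x <;> cases (e i0).1 x <;> simp
  have hsub : ∀ K : Finset X, (K : Set X) ⊆ C → ((K.image ι : Finset Om) : Set Om) ⊆ ι '' C := by
    intro K hK
    rw [Finset.coe_image]
    exact Set.image_mono hK
  rcases hsep (e ζ) with ⟨K, hK1, hK2⟩ | ⟨K, hK1, hK2⟩
  · obtain ⟨⟨k, hkP, hkS⟩, -⟩ := hsplit (K.image ι, ζ) (hζ _ (hsub K hK1))
    exact hK2 _ (key K hK1 k hkS) (hPU ⟨k, hkP, rfl⟩)
  · obtain ⟨-, ⟨k, hkP, hkS⟩⟩ := hsplit (K.image ι, ζ) (hζ _ (hsub K hK1))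
    exact hK2 _ (key K hK1 k hkS) (hQV ⟨k, hkP, rfl⟩)

/-- A family of pairwise disjoint non-small sets. -/
def DisjFam (e : Om → CB X) (k : ℕ) : Prop :=
  ∃ c : Fin k → CB X, (∀ l, ¬ Small e (c l)) ∧
    ∀ l l', l ≠ l' → ∀ x, ¬ ((c l).1 x = true ∧ (c l').1 x = true)

theorem normal_lindelof [NormalSpace (CB X)] : LindelofSpace (CB X) := by
  classical
  by_contra hnot
  obtain ⟨e', he', hd'⟩ := exists_closed_discrete hnot
  choose Kd hKd using fun i => hd' (e' i)
  -- fix the cardinality
  have hcard : ∃ m, ¬ {i | (Kd i).card = m}.Countable := by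
    by_contra hno
    push Not at hno
    have : (Set.univ : Set Om) = ⋃ m, {i | (Kd i).card = m} := by
      ext i
      simp
    apply Set.not_countable_univ (α := Om)
    rw [this]
    exact Set.countable_iUnion hno
  obtain ⟨m, hm⟩ := hcard
  obtain ⟨f, hf, hfm⟩ := exists_inj_Om_set _ hm
  let e : Om → CB X := fun i => e' (f i)
  have he : Function.Injective e := he'.comp hf
  have hd : ∀ y, ∃ K : Finset X, ∀ i, e i ∈ Nb K y → e i = y := by
    intro y
    obtain ⟨K, hK⟩ := hd' y
    exact ⟨K, fun i hi => hK _ hi⟩
  let K : Om → Finset X := fun i => Kd (f i)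
  have hKcard : ∀ i, (K i).card = m := hfm
  have hKe : ∀ i j, e j ∈ Nb (K i) (e i) → j = i := by
    intro i j hj
    exact he (hKd (f i) (f j) hj)
  -- not small implies met by almost all K i
  have hmeet : ∀ c : CB X, ¬ Small e c → {i | ∀ x ∈ K i, c.1 x = false}.Countable := by
    intro c hc
    have hc' : ¬ {b : CB X | Below b c}.Countable := by
      intro h
      apply hc
      apply h.mono
      rintro _ ⟨j, rfl⟩ x hx
      rw [meet_apply, Bool.and_eq_true] at hx
      exact hx.2
    apply (claimA e hd c hc').mono
    intro i hi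
    refine ⟨K i, hi, ?_⟩
    apply (Set.countable_singleton i).mono
    intro j hj
    exact hKe i j hj
  -- at most m disjoint
  have hno : ¬ DisjFam e (m + 1) := by
    rintro ⟨c, hc, hcd⟩
    have hex : ∃ i, ∀ l, ∃ x ∈ K i, (c l).1 x = true := by
      by_contra hno
      push Not at hno
      have : (Set.univ : Set Om) ⊆ ⋃ l, {i | ∀ x ∈ K i, (c l).1 x = false} := by
        intro i _
        obtain ⟨l, hl⟩ := hno i
        simp only [mem_iUnion]
        refine ⟨l, fun x hx => ?_⟩
        simpa using hl x hx
      exact Set.not_countable_univ ((Set.countable_iUnion (fun l => hmeet _ (hc l))).mono this)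
    obtain ⟨i, hi⟩ := hex
    choose x hx hcx using hi
    have hinj : Function.Injective (fun l => (⟨x l, hx l⟩ : K i)) := by
      intro l l' h
      by_contra hne
      have h' : x l = x l' := congrArg Subtype.val h
      exact hcd l l' hne (x l) ⟨hcx l, by rw [h']; exact hcx l'⟩
    have := Fintype.card_le_of_injective _ hinj
    rw [Fintype.card_fin, Fintype.card_coe, hKcard] at this
    omega
  have hmax : ∃ k, DisjFam e k ∧ ¬ DisjFam e (k + 1) := by
    by_contra hno'
    push Not at hno'
    have : ∀ k, DisjFam e k := by
      intro k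
      induction k with
      | zero => exact ⟨Fin.elim0, fun l => Fin.elim0 l, fun l => Fin.elim0 l⟩
      | succ k ih => exact hno' k ih
    exact hno (this _)
  obtain ⟨k, ⟨c, hc, hcd⟩, hk⟩ := hmax
  -- the remainder
  have hrclopen : IsClopen {x | ∀ l, (c l).1 x = false} := by
    have : {x | ∀ l, (c l).1 x = false} = ⋂ l, {x | (c l).1 x = false} := by
      ext x
      simp
    rw [this]
    exact isClopen_iInter_of_finite (fun l => isClopen_eval _ _)
  let r : CB X := ofClopen _ hrclopen
  have hrtrue : ∀ x, r.1 x = true ↔ ∀ l, (c l).1 x = false := fun x =>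
    ofClopen_apply_true hrclopen x
  have hrsmall : Small e r := by
    by_contra hr
    apply hk
    refine ⟨Fin.cons r c, ?_, ?_⟩
    · intro l
      refine Fin.cases ?_ ?_ l
      · simpa using hr
      · intro l
        simpa using hc l
    · intro l l'
      refine Fin.cases ?_ ?_ l
      · refine Fin.cases ?_ ?_ l'
        · intro h
          exact absurd rfl h
        · intro l' _ x
          simp only [Fin.cons_zero, Fin.cons_succ]
          rintro ⟨h1, h2⟩
          rw [(hrtrue x).1 h1 l'] at h2
          simp at h2
      · intro l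
        refine Fin.cases ?_ ?_ l'
        · intro _ x
          simp only [Fin.cons_zero, Fin.cons_succ]
          rintro ⟨h1, h2⟩
          rw [(hrtrue x).1 h2 l] at h1
          simp at h1
        · intro l' h x
          simp only [Fin.cons_succ]
          exact hcd l l' (fun h' => h (by rw [h'])) x
  -- dichotomy
  let neg : CB X → CB X := fun y => comb (fun p _ => !p) y y
  have hneg : ∀ y x, (neg y).1 x = !(y.1 x) := fun _ _ => rfl
  have hdich : ∀ l (y : CB X), Small e (meet y (c l)) ∨ Small e (meet (neg y) (c l)) := by
    intro l y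
    by_contra hcon
    push Not at hcon
    obtain ⟨h1, h2⟩ := hcon
    apply hk
    refine ⟨Fin.cons (meet y (c l)) (Function.update c l (meet (neg y) (c l))), ?_, ?_⟩
    · intro j
      refine Fin.cases ?_ ?_ j
      · simpa using h1
      · intro j
        simp only [Fin.cons_succ]
        by_cases hj : j = l
        · subst hj
          simpa using h2
        · rw [Function.update_of_ne hj]
          exact hc j
    · -- disjointness
      have hA : ∀ (j : Fin k) x, (meet y (c l)).1 x = true →
          (Function.update c l (meet (neg y) (c l)) j).1 x = true → False := by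
        intro j x h3 h4
        by_cases hj : j = l
        · subst hj
          rw [Function.update_self, meet_apply, hneg] at h4
          rw [meet_apply] at h3
          revert h3 h4
          cases y.1 x <;> simp
        · rw [Function.update_of_ne hj] at h4
          rw [meet_apply, Bool.and_eq_true] at h3
          exact hcd j l hj x ⟨h4, h3.2⟩
      have hB : ∀ (j j' : Fin k), j ≠ j' → ∀ x,
          (Function.update c l (meet (neg y) (c l)) j).1 x = true →
          (Function.update c l (meet (neg y) (c l)) j').1 x = true → False := by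
        have hC : ∀ (j : Fin k) x, (Function.update c l (meet (neg y) (c l)) j).1 x = true →
            (c j).1 x = true := by
          intro j x h
          by_cases hj : j = l
          · subst hj
            rw [Function.update_self, meet_apply, Bool.and_eq_true] at h
            exact h.2
          · rwa [Function.update_of_ne hj] at h
        intro j j' hjj' x h3 h4
        exact hcd j j' hjj' x ⟨hC j x h3, hC j' x h4⟩
      intro j j'
      refine Fin.cases ?_ ?_ j
      · refine Fin.cases ?_ ?_ j'
        · intro h
          exact absurd rfl h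
        · intro j' _ x
          simp only [Fin.cons_zero, Fin.cons_succ]
          rintro ⟨h3, h4⟩
          exact hA j' x h3 h4
      · intro j
        refine Fin.cases ?_ ?_ j'
        · intro _ x
          simp only [Fin.cons_zero, Fin.cons_succ]
          rintro ⟨h3, h4⟩
          exact hA j x h4 h3
        · intro j' h x
          simp only [Fin.cons_succ]
          rintro ⟨h3, h4⟩
          exact hB j j' (fun h' => h (by rw [h'])) x h3 h4
  -- types
  let τ : Om → (Fin k → Prop) := fun i l => Small e (meet (e i) (c l))
  have hτ : ∃ σ, ¬ {i | τ i = σ}.Countable := by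
    by_contra hno'
    push Not at hno'
    have : (Set.univ : Set Om) = ⋃ σ, {i | τ i = σ} := by
      ext i
      simp
    apply Set.not_countable_univ (α := Om)
    rw [this]
    exact Set.countable_iUnion hno'
  obtain ⟨σ, hσ⟩ := hτ
  obtain ⟨g, hg, hgσ⟩ := exists_inj_Om_set _ hσ
  have hsm : ∀ i j, Small e (comb xor (e (g i)) (e (g j))) := by
    intro i j
    have hij : τ (g i) = τ (g j) := by
      rw [show τ (g i) = σ from hgσ i, show τ (g j) = σ from hgσ j]
    let S : Set (CB X) := {y | Small e y} ∩
      ({r} ∪ (Set.range (fun l => meet (e (g i)) (c l)) ∪ Set.range (fun l => meet (e (g j)) (c l)))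
        ∪ (Set.range (fun l => meet (neg (e (g i))) (c l)) ∪
          Set.range (fun l => meet (neg (e (g j))) (c l))))
    apply small_cover S
    · apply Set.Finite.inter_of_right
      apply Set.Finite.union
      · apply Set.Finite.union (Set.finite_singleton r)
        exact (Set.finite_range _).union (Set.finite_range _)
      · exact (Set.finite_range _).union (Set.finite_range _)
    · exact fun y hy => hy.1
    · intro x hx
      change xor ((e (g i)).1 x) ((e (g j)).1 x) = true at hx
      by_cases hr : r.1 x = true
      · exact ⟨r, ⟨hrsmall, Or.inl (Or.inl rfl)⟩, hr⟩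
      · rw [hrtrue] at hr
        push Not at hr
        obtain ⟨l, hl⟩ := hr
        simp only [ne_eq, Bool.not_eq_false] at hl
        by_cases hsl : Small e (meet (e (g i)) (c l))
        · have hsl' : Small e (meet (e (g j)) (c l)) := by
            have : τ (g i) l = τ (g j) l := by rw [hij]
            exact this.mp hsl
          cases hi : (e (g i)).1 x
          · have hj : (e (g j)).1 x = true := by
              rw [hi] at hx
              simpa using hx
            refine ⟨meet (e (g j)) (c l), ⟨hsl', Or.inl (Or.inr (Or.inr ⟨l, rfl⟩))⟩, ?_⟩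
            rw [meet_apply, hj, hl]
            rfl
          · refine ⟨meet (e (g i)) (c l), ⟨hsl, Or.inl (Or.inr (Or.inl ⟨l, rfl⟩))⟩, ?_⟩
            rw [meet_apply, hi, hl]
            rfl
        · have hsl' : ¬ Small e (meet (e (g j)) (c l)) := by
            have : τ (g i) l = τ (g j) l := by rw [hij]
            exact fun h => hsl (this.mpr h)
          have h1 : Small e (meet (neg (e (g i))) (c l)) := by
            rcases hdich l (e (g i)) with h | h
            · exact absurd h hsl
            · exact h
          have h2 : Small e (meet (neg (e (g j))) (c l)) := by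
            rcases hdich l (e (g j)) with h | h
            · exact absurd h hsl'
            · exact h
          cases hi : (e (g i)).1 x
          · refine ⟨meet (neg (e (g i))) (c l), ⟨h1, Or.inr (Or.inl ⟨l, rfl⟩)⟩, ?_⟩
            rw [meet_apply, hneg, hi, hl]
            rfl
          · have hj : (e (g j)).1 x = false := by
              rw [hi] at hx
              simpa using hx
            refine ⟨meet (neg (e (g j))) (c l), ⟨h2, Or.inr (Or.inr ⟨l, rfl⟩)⟩, ?_⟩
            rw [meet_apply, hneg, hj, hl]
            rfl
  apply case_two (fun i => e (g i)) (he.comp hg)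
  · intro y
    obtain ⟨K, hK⟩ := hd y
    exact ⟨K, fun i hi => hK _ hi⟩
  · intro i j
    exact small_comp (hsm i j) g

end main

end Pool.Agent.Lib.MP_d2cc73_gt
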